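import Pool.Agent.Lib.MP_eee7a8_ag.TB.IfaceB

/-! # Module WW: the factors `w(k)` -/

namespace Pool.Agent.Lib.MP_eee7a8_ag.TB.PB.H34

open Matrix Pool.Agent.Lib.MP_eee7a8_ag.TB Pool.Agent.Lib.MP_eee7a8_ag.TB.PB

theorem ww (hmem : MEMUN_S) : WW_S := by
  intro G κ Λ n
  have h1 : ∀ (n : κ → ℤ) j k, Λ.Mem j k → Λ.w n k = k ^ n j := by
    intro n j k hk
    have H : ∃ j, Λ.Mem j k := ⟨j, hk⟩
    unfold LFam.w
    rw [dif_pos H, hmem G κ Λ k H.choose j H.choose_spec hk]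
  refine ⟨h1 n, ?_, ?_, ?_, ?_⟩
  · rintro k ⟨j, hk⟩
    rw [h1 n j k hk, h1 n j _ hk.inv, _root_.inv_zpow]
  · rintro k ⟨j, hk⟩ g hg
    rw [h1 n j k hk, h1 n j _ (hk.conj hg), conj_zpow]
  · rintro k ⟨j, hk⟩
    rw [h1 n j k hk, h1 (-n) j k hk, Pi.neg_apply, _root_.zpow_neg]
  · rintro k ⟨j, hk⟩
    rw [h1 n j k hk]
    refine ⟨Subgroup.zpow_mem G hk.mem_G _, ?_, ?_⟩
    · exact ((Commute.refl k).zpow_left (n j)).eq
    · intro v
      have h := side_conj (k ^ n j) k v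
      have e : k ^ n j * k * (k ^ n j)⁻¹ = k := by
        rw [((Commute.refl k).zpow_left (n j)).eq, mul_assoc, mul_inv_cancel, mul_one]
      rw [e] at h
      exact h

end Pool.Agent.Lib.MP_eee7a8_ag.TB.PB.H34
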